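import Pool.Agent.W412.TI.Spec

set_option autoImplicit false

/-!
Spaces of transitive interval maps: the means.
-/

namespace Pool.Agent.W783.TI

open Set Pool.Agent.W412.TI

/-- the extension of `F` to the line -/
noncomputable def ext (F : C(unitInterval, unitInterval)) (u : ℝ) : ℝ :=
  ((F (Set.projIcc 0 1 zero_le_one u) : unitInterval) : ℝ)

theorem ext_cont (F : C(unitInterval, unitInterval)) : Continuous (ext F) := by
  unfold ext
  exact continuous_subtype_val.comp (F.continuous.comp continuous_projIcc)

theorem ext_nonneg (F : C(unitInterval, unitInterval)) (u : ℝ) : 0 ≤ ext F u :=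
  (F (Set.projIcc 0 1 zero_le_one u)).2.1

theorem ext_le_one (F : C(unitInterval, unitInterval)) (u : ℝ) : ext F u ≤ 1 :=
  (F (Set.projIcc 0 1 zero_le_one u)).2.2

theorem avg_eq (F : C(unitInterval, unitInterval)) (t x : ℝ) :
    avg F t x = ∫ s in (0:ℝ)..1, ext F (x + t * s) := rfl

theorem ext_int (F : C(unitInterval, unitInterval)) (a b : ℝ) :
    IntervalIntegrable (ext F) MeasureTheory.volume a b :=
  (ext_cont F).intervalIntegrable a b

theorem avg_nonneg (F : C(unitInterval, unitInterval)) (t x : ℝ) : 0 ≤ avg F t x := by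
  rw [avg_eq]
  exact intervalIntegral.integral_nonneg zero_le_one fun s _ => ext_nonneg F _

theorem avg_le_one (F : C(unitInterval, unitInterval)) (t x : ℝ) : avg F t x ≤ 1 := by
  rw [avg_eq]
  have h1 : Continuous fun s : ℝ => ext F (x + t * s) := (ext_cont F).comp (by fun_prop)
  calc (∫ s in (0:ℝ)..1, ext F (x + t * s)) ≤ ∫ _s in (0:ℝ)..1, (1 : ℝ) :=
        intervalIntegral.integral_mono_on zero_le_one (h1.intervalIntegrable _ _)
          (continuous_const.intervalIntegrable _ _) fun s _ => ext_le_one F _
    _ = 1 := by simp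

theorem avg_subst (F : C(unitInterval, unitInterval)) {t : ℝ} (ht : 0 < t) (x : ℝ) :
    avg F t x = t⁻¹ * ∫ u in x..(x + t), ext F u := by
  rw [avg_eq]
  have h := intervalIntegral.integral_comp_add_mul (ext F) ht.ne' x (a := 0) (b := 1)
  simp only [mul_zero, add_zero, mul_one, smul_eq_mul] at h
  exact h

theorem int_bd (F : C(unitInterval, unitInterval)) {a b : ℝ} (h : a ≤ b) :
    0 ≤ (∫ u in a..b, ext F u) ∧ (∫ u in a..b, ext F u) ≤ b - a := by
  refine ⟨intervalIntegral.integral_nonneg h fun s _ => ext_nonneg F _, ?_⟩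
  calc (∫ u in a..b, ext F u) ≤ ∫ _u in a..b, (1 : ℝ) :=
        intervalIntegral.integral_mono_on h (ext_int F a b)
          (continuous_const.intervalIntegrable _ _) fun s _ => ext_le_one F _
    _ = b - a := by simp

theorem lip_aux (F : C(unitInterval, unitInterval)) {t x y : ℝ} (ht : 0 < t) (hxy : x ≤ y) :
    |avg F t x - avg F t y| ≤ (y - x) / t := by
  rw [avg_subst F ht, avg_subst F ht, ← mul_sub, abs_mul, abs_of_pos (inv_pos.2 ht),
    div_eq_inv_mul]
  refine mul_le_mul_of_nonneg_left ?_ (inv_pos.2 ht).le
  have h1 : (∫ u in x..(x + t), ext F u) - ∫ u in y..(y + t), ext F u =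
      (∫ u in x..y, ext F u) - ∫ u in (x + t)..(y + t), ext F u := by
    have e1 := intervalIntegral.integral_add_adjacent_intervals (ext_int F x (x + t))
      (ext_int F (x + t) (y + t))
    have e2 := intervalIntegral.integral_add_adjacent_intervals (ext_int F x y)
      (ext_int F y (y + t))
    linarith
  rw [h1]
  obtain ⟨a1, a2⟩ := int_bd F hxy
  obtain ⟨b1, b2⟩ := int_bd F (show x + t ≤ y + t by linarith)
  rw [abs_le]
  constructor <;> linarith

theorem lip (F : C(unitInterval, unitInterval)) (t x y : ℝ) (ht : 0 < t) :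
    |avg F t x - avg F t y| ≤ |x - y| / t := by
  rcases le_total x y with h | h
  · rw [abs_sub_comm x y, abs_of_nonneg (sub_nonneg.2 h)]
    exact lip_aux F ht h
  · rw [abs_of_nonneg (sub_nonneg.2 h), abs_sub_comm]
    exact lip_aux F ht h

theorem avg_zero (F : C(unitInterval, unitInterval)) (x : unitInterval) :
    avg F 0 x = F x := by
  rw [avg_eq]
  have h : ∀ s : ℝ, ext F ((x : ℝ) + 0 * s) = (F x : ℝ) := by
    intro s
    unfold ext
    rw [zero_mul, add_zero, projIcc_val]
  simp only [h]
  simp

theorem avgC_cont : Continuous fun q : C(unitInterval, unitInterval) × ℝ => avgC q.1 q.2 := by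
  refine ContinuousMap.continuous_of_continuous_uncurry _ ?_
  exact continuous_avg.comp (f := fun p : (C(unitInterval, unitInterval) × ℝ) × unitInterval =>
    (p.1.1, p.1.2, (p.2 : ℝ))) (by fun_prop)

theorem coeC_cont : Continuous fun F : C(unitInterval, unitInterval) => coeC F := by
  refine ContinuousMap.continuous_of_continuous_uncurry _ ?_
  exact continuous_subtype_val.comp
    (f := fun p : C(unitInterval, unitInterval) × unitInterval => p.1 p.2) (by fun_prop)

theorem err_cont : Continuous fun q : C(unitInterval, unitInterval) × ℝ => err q.1 q.2 := by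
  unfold err
  exact avgC_cont.dist (coeC_cont.comp continuous_fst)

theorem avg_err (F : C(unitInterval, unitInterval)) (t : ℝ) (x : unitInterval) :
    |avg F t x - F x| ≤ err F t := by
  have h := ContinuousMap.dist_apply_le_dist (f := avgC F t) (g := coeC F) x
  rw [Real.dist_eq] at h
  exact h

theorem err_zero (F : C(unitInterval, unitInterval)) : err F 0 = 0 := by
  unfold err
  rw [dist_eq_zero]
  ext x
  exact avg_zero F x

theorem avgFacts : S_AVG :=
  ⟨fun F t x => ⟨avg_nonneg F t x, avg_le_one F t x⟩, fun F t x y ht => lip F t x y ht,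
    avg_zero, err_cont, avg_err, err_zero⟩

end Pool.Agent.W783.TI
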